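import Pool.Agent.T9h37.TL.Bundle

/-!
# A primitive symplectic fourfold with a nontrivial torsion line bundle

The rational SYZ conjecture (Q1) is stated for all nontrivial movable line bundles `L` with `q_X(L) = 0` on
a primitive symplectic variety `X`. On a smooth `X` (an irreducible holomorphic symplectic manifold) a
nontrivial line bundle is not torsion. We show that for singular primitive symplectic varieties this is not
so, and that Q1, as it is stated, has a negative answer:

**Theorem.** Let `E = ℂ / (ℤ + ℤ τ)` and `E' = ℂ / (ℤ + ℤ τ')` be any elliptic curves. There is a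
four-dimensional primitive symplectic variety `X`, the quotient of `E × E × E' × E'` by a dihedral group of
order eight, and a line bundle `L` on `X` which is not trivial, but `L ^ 2` is trivial. So the class
`c_1(L) ∈ H^2(X, ℝ)` is zero, `L` is nef and movable, and `q_X(L) = 0`, but all powers of `L` have at most
one section up to a factor, and they do not define a rational map to a variety of positive dimension. It
is the only exception on `X`: every movable, or only pseudo-effective, line bundle `M` with `q_X(M) = 0` is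
trivial, or isomorphic to `L`, or it induces a holomorphic Lagrangian fibration.

Four is the smallest dimension for torus quotients: if `dim X = 2`, then every pseudo-effective
line bundle `M` with `q_X(M) = 0` is trivial or induces a holomorphic Lagrangian fibration.

In the coordinates `(u₁, u₂; w₁, w₂)`, `u_i = x_i`, `w₁ = y₁ + y₂`, `w₂ = y₁ - y₂`, the group is generated by
`r (u₁, u₂; w₁, w₂) = (u₂, - u₁; - w₂, w₁)`, which has isolated fixed points, as well as `r ^ 2 = - 1`, and
`s (u₁, u₂; w₁, w₂) = (u₁ + 1/2, - u₂ + 1/2; w₂ + 1/2, w₁ + 1/2)`. The elements `s`, `s r`, `s r ^ 2`,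
`s r ^ 3` act without fixed points: `s` moves `u₁`, and `s r` moves `w₁` or `w₂`. So the fundamental group of `X` has
two elements, and `L` is given by its nontrivial character. The linear part of the group is two times the
irreducible representation `W` of dimension two of the dihedral group, so that `H^0(X, Ω^[1]) = 0`, and
`H^0(X, Ω^[2]) = (Λ² W)^G ⊗ S² ℂ² ⊕ (S² W)^G ⊗ Λ² ℂ²` is spanned by the symplectic form
`dx₁ ∧ dy₁ + dx₂ ∧ dy₂`.

So in Q1 the word nontrivial has to be replaced by not torsion (the conjecture with this hypothesis is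
proved for torus quotients in the starting file `TorusQuotients`, which is used here for the line bundles
`M` whose Chern form is not zero).

`latt`, `IsPrimitiveSymplectic`, `LineBundle`, `LineBundle.pow`, `LineBundle.IsSection`
and `LineBundle.IsTrivial` are defined in `Pool.Agent.W594.SYZ.Defs2`; `IsChernForm`,
`IsDegenerateForm`, `IsLagrangianFibration` and `Induces` in `Pool.Agent.W594.SYZ.TQDefs`;
`IsPseudoEffective` in `Pool.Agent.TH128.SYZ.PsefDefs`; `V`, `Lam`, `half`, `IsElt` and `Gam` in
`Pool.Agent.T9h37.TL.Defs`; `Iso` in `Pool.Agent.T9h37.TL.Char`.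
-/

set_option autoImplicit false

universe u

namespace Pool.Agent.Results.MP_e4ecdb_ag.TorsionLineBundle

open Pool.Agent.W594.SYZ2 Pool.Agent.TH128.SYZ Pool.Agent.T9h37.TL

/-- (1) For all `τ`, `τ'` which are not real, `X = V / Γ`, `V = ℂ⁴`, `Γ = Gam τ τ'`, is a primitive symplectic
variety of dimension four with a line bundle `L` such that `L` is not trivial, `L ^ 2` is trivial, `c_1(L)` is
zero in `H^2(X, ℝ)`, `L` is pseudo-effective, and for every `k` all sections of `L ^ k` are multiples of
one section; and every pseudo-effective line bundle `M` with Chern form `H` and `q_X(M) = 0` is trivial, or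
isomorphic to `L`, or induces a holomorphic Lagrangian fibration.

(2) On a primitive symplectic torus quotient `V / Γ` of dimension two every pseudo-effective line bundle
`M` with `q_X(M) = 0` is trivial or induces a holomorphic Lagrangian fibration. -/
theorem result :
    (Module.finrank ℂ V = 4 ∧ ∀ τ τ' : ℂ, τ.im ≠ 0 → τ'.im ≠ 0 →
      IsPrimitiveSymplectic (Gam τ τ') ∧ ∃ L : LineBundle (Gam τ τ'),
        ¬ L.IsTrivial ∧ (L.pow 2).IsTrivial ∧ IsChernForm L (fun _ _ => 0) ∧ IsPseudoEffective L ∧
        (∀ k : ℕ, ∃ s₀ : V → ℂ, ∀ s, (L.pow k).IsSection s → ∃ c : ℂ, s = c • s₀) ∧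
        ∀ (M : LineBundle (Gam τ τ')) (H : V → V → ℂ), IsChernForm M H → IsDegenerateForm H →
          IsPseudoEffective M → M.IsTrivial ∨ Iso L M ∨
            ∃ (n : ℕ) (Δ : Subgroup ((Fin n → ℂ) ≃ᵃ[ℂ] (Fin n → ℂ))) (π : V →ₗ[ℂ] (Fin n → ℂ)),
              IsLagrangianFibration (Gam τ τ') Δ π ∧ Induces M Δ π) ∧
    ∀ (V : Type u) [NormedAddCommGroup V] [NormedSpace ℂ V] [FiniteDimensional ℂ V],
      Module.finrank ℂ V = 2 → ∀ Γ : Subgroup (V ≃ᵃ[ℂ] V), IsPrimitiveSymplectic Γ →
        ∀ (M : LineBundle Γ) (H : V → V → ℂ), IsChernForm M H → IsDegenerateForm H →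
          IsPseudoEffective M → M.IsTrivial ∨
            ∃ (n : ℕ) (Δ : Subgroup ((Fin n → ℂ) ≃ᵃ[ℂ] (Fin n → ℂ))) (π : V →ₗ[ℂ] (Fin n → ℂ)),
              IsLagrangianFibration Γ Δ π ∧ Induces M Δ π := by
  refine ⟨⟨by simp, fun τ τ' hτ hτ' => ⟨isPrimitiveSymplectic hτ hτ', bun hτ hτ',
    not_trivial hτ hτ', sq_trivial hτ hτ', chern_zero hτ hτ', psef hτ hτ',
    sections_le_one hτ hτ', fun M H hc hd hp => exactly hτ hτ' M H hc hd hp⟩⟩, ?_⟩
  intro V _ _ _ h2 Γ hΓ M H hc hd hp
  exact dim_two h2 Γ hΓ M H hc hd hp

end Pool.Agent.Results.MP_e4ecdb_ag.TorsionLineBundle
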